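import Pool.Agent.Lib_helper87.Tilf.OddSet

/-!
# MP_2cf295_an: automatic continuity of translation-invariant functionals does not characterise
Sidon sets

If a set `E` of integers contains only finitely many multiples of some `N ≥ 1`, then every
translation-invariant linear functional on `C_E(𝕋)` is a multiple of `f ↦ f̂(0)`, hence continuous.
The odd integers (also together with `0`) are such a set (`N = 2`), and not a Sidon set.
-/

set_option autoImplicit false

namespace Pool.Agent.Results.MP_2cf295_an.NotOnlySidon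

open Pool.Agent.Lib_helper87.Tilf

lemma isSidon_finite {E : Set ℤ} (hE : E.Finite) : IsSidon E := by
  intro f hf
  refine summable_of_hasFiniteSupport (hE.subset fun k hk => ?_)
  by_contra hkE
  exact hk (by show ‖fourierCoeff (f : UnitAddCircle → ℂ) k‖ = 0; rw [hf k hkE, norm_zero])

lemma norm_zsmul_inv {N : ℕ} (hN : 1 ≤ N) {k : ℤ}
    (h : ‖k • ((1 / (N : ℝ) : ℝ) : UnitAddCircle)‖ < 1 / (N : ℝ)) : (N : ℤ) ∣ k := by
  have hN0 : (0 : ℝ) < N := by exact_mod_cast hN
  have e1 : k • ((1 / (N : ℝ) : ℝ) : UnitAddCircle) = (((k : ℝ) / N : ℝ) : UnitAddCircle) := by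
    have : k • ((1 / (N : ℝ) : ℝ) : UnitAddCircle) =
        ((k • (1 / (N : ℝ)) : ℝ) : UnitAddCircle) := rfl
    rw [this, zsmul_eq_mul]
    congr 1
    ring
  rw [e1, UnitAddCircle.norm_eq] at h
  set r : ℤ := round ((k : ℝ) / N) with hr
  have h2 : |(k : ℝ) - r * N| < 1 := by
    have : (k : ℝ) - r * N = ((k : ℝ) / N - r) * N := by field_simp
    rw [this, abs_mul, abs_of_pos hN0]
    calc |(k : ℝ) / N - r| * N < 1 / N * N := mul_lt_mul_of_pos_right h hN0
      _ = 1 := by field_simp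
  have h3 : |k - r * N| < 1 := by exact_mod_cast h2
  have h4 : k - r * N = 0 := Int.abs_lt_one_iff.1 h3
  exact ⟨r, by linarith [mul_comm (r : ℤ) (N : ℤ)]⟩

lemma auto_of_finite (E : Set ℤ) (N : ℕ) (hN : 1 ≤ N) (hE : {k ∈ E | (N : ℤ) ∣ k}.Finite) :
    AutomaticContinuity E := by
  have hN0 : (0 : ℝ) < N := by exact_mod_cast hN
  refine automaticContinuity_of_sidon_near_zero {((1 / (N : ℝ) : ℝ) : UnitAddCircle)}
    (δ := 1 / (N : ℝ)) (by positivity) (isSidon_finite (hE.subset ?_))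
  rintro k ⟨hk, hk2⟩
  exact ⟨hk, norm_zsmul_inv hN (hk2 _ (Finset.mem_singleton_self _))⟩

/-- A continuous translation-invariant functional is a multiple of the mean. -/
lemma form (E : Set ℤ) (Φ : CE E →ₗ[ℂ] ℂ) (hΦ : IsTILF Φ) (hc : Continuous Φ) :
    ∃ c : ℂ, ∀ f : CE E, Φ f = c * fourierCoeff (f.1 : UnitAddCircle → ℂ) 0 := by
  by_cases h0 : (0 : ℤ) ∈ E
  · have hone : (fourier 0 : C(UnitAddCircle, ℂ)) ∈ CE E := by
      intro k hk
      have : k ≠ 0 := fun h => hk (h ▸ h0)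
      rw [fourierCoeff_fourier, Pi.single_apply, if_neg this]
    refine ⟨Φ ⟨_, hone⟩, fun f => ?_⟩
    have h1 := continuous_tilf_vanish Φ hΦ hc
      (f - (fourierCoeff (f.1 : UnitAddCircle → ℂ) 0) • ⟨_, hone⟩) (by
        simp only [Submodule.coe_sub, Submodule.coe_smul, map_sub, map_smul, coeffL_apply,
          fourierCoeff_fourier]
        simp)
    have h2 := LinearMap.map_sub Φ f ((fourierCoeff (f.1 : UnitAddCircle → ℂ) 0) • ⟨_, hone⟩)
    rw [h1, LinearMap.map_smul] at h2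
    rw [sub_eq_zero.1 h2.symm, smul_eq_mul, mul_comm]
  · exact ⟨0, fun f => by
      rw [continuous_tilf_vanish Φ hΦ hc f (f.2 0 h0), zero_mul]⟩

theorem result :
    (∀ (E : Set ℤ) (N : ℕ), 1 ≤ N → {k ∈ E | (N : ℤ) ∣ k}.Finite →
      ∀ Φ : CE E →ₗ[ℂ] ℂ, IsTILF Φ →
        Continuous Φ ∧ ∃ c : ℂ, ∀ f : CE E, Φ f = c * fourierCoeff (f.1 : UnitAddCircle → ℂ) 0) ∧
    (∀ E : Set ℤ, {k : ℤ | Odd k} ⊆ E →
      ∃ f ∈ CE E, ¬ Summable fun k : ℤ => ‖fourierCoeff (f : UnitAddCircle → ℂ) k‖) ∧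
    ¬ ∀ E : Set ℤ, AutomaticContinuity E ↔ IsSidon E := by
  have hns := not_isSidon_odd
  refine ⟨fun E N hN hE Φ hΦ => ?_, fun E hE => ?_,
    fun h => hns ((h _).1 automaticContinuity_odd)⟩
  · have hc := auto_of_finite E N hN hE Φ hΦ
    exact ⟨hc, form E Φ hΦ hc⟩
  · by_contra hcon
    push Not at hcon
    exact hns fun f hf => hcon f fun k hk => hf k fun hodd => hk (hE hodd)

end Pool.Agent.Results.MP_2cf295_an.NotOnlySidon
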